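import Pool.Agent.N19.L1
import Pool.Agent.NC11.M2
import Pool.Agent.MP_9c45e8_nt.B

set_option autoImplicit false

open scoped Real

namespace N19

/-! ## [N19-L2] the identities of Gauss

`R₄(z) = t4(z) η(z)/η(z/2)²`, `R₃(z) = R₄(z + 1)`, `R₂(z) = t2(z) η(z)/(2 η(2z)²)` are permuted by `z ↦ z + 1` (`R₃ ↔ R₄`, `R₂` fixed) and by `z ↦ -1/z`
(`R₂ ↔ R₄`, `R₃` fixed; for the last one: `(-1/z + 1)/2 = (u - 1)/(2u - 1)` with `u = (z + 1)/2`, `NC11.eta_sq_SL` (Pool/Agent/NC11/M2.lean) with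
`(1, -1; 2, -1)`; the multipliers must be `1` - evaluate both sides or compute). All three are holomorphic, non-zero denominators, and tend to `1` at `i∞`
(for `Im z → ∞`, uniformly). Hence `R₂ + R₃ + R₄`, `R₂R₃ + R₂R₄ + R₃R₄`, `R₂R₃R₄` are `SL₂(ℤ)`-invariant, bounded at `i∞`, so constant
(level one: Mathlib `ModularFormClass.levelOne_weight_zero_const` or `ModularForm.eq_const_of_weight_zero`), equal to `3, 3, 1`: all `R_i` are roots of `(x-1)³`.
(Any other proof is welcome.) -/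

open Filter Topology

/-! ### asymptotics -/

/-- neighbourhoods of `i∞` -/
def l2_L : Filter ℂ := comap Complex.im atTop

theorem l2_im : Tendsto Complex.im l2_L atTop := tendsto_comap

theorem l2_exp {c : ℝ} (hc : 0 < c) :
    Tendsto (fun z : ℂ => Real.exp (-(c * z.im))) l2_L (𝓝 0) :=
  Real.tendsto_exp_neg_atTop_nhds_zero.comp ((tendsto_const_mul_atTop_of_pos hc).2 l2_im)

/-- `∏ (1 - q^n)` -/
noncomputable def l2_E (z : ℂ) : ℂ := ∏' n : ℕ, (1 - ModularForm.eta_q n z)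

theorem l2_eta (z : ℂ) :
    ModularForm.eta z = Complex.exp (2 * π * Complex.I * z / 24) * l2_E z := by
  unfold ModularForm.eta l2_E Function.Periodic.qParam
  push_cast
  rfl

theorem l2_E_tendsto : Tendsto l2_E l2_L (𝓝 1) := by
  have htprod : Tendsto (fun q : ℂ ↦ ∏' (n : ℕ), (1 - q ^ (n + 1))) (𝓝 0) (𝓝 1) := by
    have := tendsto_tprod_one_add_of_dominated_convergence (𝓕 := 𝓝 0) (g := 0)
      (f := fun (q : ℂ) (n : ℕ) ↦ -q ^ (n + 1)) (bound := fun n ↦ (1 / 2 : ℝ) ^ (n + 1))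
    simp only [Pi.zero_apply, norm_neg, norm_pow, add_zero, tprod_one] at this
    simp_rw [sub_eq_add_neg]
    refine this
      (by simpa only [pow_succ'] using (summable_geometric_of_abs_lt_one (by norm_num)).mul_left _)
      (fun k ↦ by simpa using ((continuous_pow (M := ℂ) (k + 1)).tendsto 0).neg) ?_
    filter_upwards [Metric.ball_mem_nhds (0 : ℂ) (by norm_num : (0 : ℝ) < 1 / 2)] with q hq k
    exact pow_le_pow_left₀ (norm_nonneg _) (mem_ball_zero_iff.mp hq).le _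
  have hq : Tendsto (fun z : ℂ => Complex.exp (2 * π * Complex.I * z)) l2_L (𝓝 0) := by
    rw [tendsto_zero_iff_norm_tendsto_zero]
    refine (l2_exp (c := 2 * π) (by positivity)).congr fun z => ?_
    rw [Complex.norm_exp]
    congr 1
    simp
  have := htprod.comp hq
  refine this.congr fun z => ?_
  unfold l2_E
  simp only [Function.comp, ModularForm.eta_q_eq_pow]

theorem l2_E_ne {z : ℂ} (hz : 0 < z.im) : l2_E z ≠ 0 := ModularForm.eta_tprod_ne_zero hz

theorem l2_theta_tendsto : Tendsto jacobiTheta l2_L (𝓝 1) := by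
  have h := isBigO_at_im_infty_jacobiTheta_sub_one
  have h1 : Tendsto (fun z : ℂ => Real.exp (-π * z.im)) l2_L (𝓝 0) := by
    refine (l2_exp (c := π) Real.pi_pos).congr fun z => ?_
    congr 1
    ring
  have h2 : Tendsto (fun z => jacobiTheta z - 1) l2_L (𝓝 0) := h.trans_tendsto h1
  have h3 := h2.add_const 1
  simpa using h3

theorem l2_add_one : Tendsto (fun z : ℂ => z + 1) l2_L l2_L := by
  unfold l2_L
  rw [tendsto_comap_iff]
  have : (Complex.im ∘ fun z : ℂ => z + 1) = Complex.im := by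
    funext z
    simp
  rw [this]
  exact tendsto_comap

theorem l2_scale {c : ℝ} (hc : 0 < c) : Tendsto (fun z : ℂ => (c : ℂ) * z) l2_L l2_L := by
  unfold l2_L
  rw [tendsto_comap_iff]
  have : (Complex.im ∘ fun z : ℂ => (c : ℂ) * z) = fun z => c * z.im := by
    funext z
    simp
  rw [this]
  exact (tendsto_const_mul_atTop_of_pos hc).2 l2_im

theorem l2_t4_tendsto : Tendsto t4 l2_L (𝓝 1) := l2_theta_tendsto.comp l2_add_one

theorem l2_theta_bound {w : ℂ} (hw : 1 ≤ w.im) :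
    ‖jacobiTheta w - 1 - 2 * Complex.exp (π * Complex.I * w)‖ ≤
      4 * Real.exp (-(4 * π * w.im)) := by
  have hw0 : 0 < w.im := by linarith
  have h := hasSum_nat_jacobiTheta hw0
  have h1 := (hasSum_nat_add_iff' 1).2 h
  have hr0 : 0 ≤ Real.exp (-(π * w.im)) := (Real.exp_pos _).le
  have hr1 : Real.exp (-(π * w.im)) < 1 / 2 := by
    have h3 : (1 : ℝ) < π * w.im := by nlinarith [Real.pi_gt_three]
    have h4 : Real.exp (-(π * w.im)) < Real.exp (-1) := Real.exp_lt_exp.2 (by linarith)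
    have h5 : Real.exp (-1) < 1 / 2 := by
      rw [Real.exp_neg, inv_lt_comm₀ (Real.exp_pos _) (by norm_num)]
      have := Real.exp_one_gt_d9
      norm_num
      linarith
    linarith
  have hg := (hasSum_geometric_of_lt_one hr0 (by linarith)).mul_left (Real.exp (-(4 * π * w.im)))
  have hb := h1.norm_le_of_bounded hg (fun n => by
    rw [Complex.norm_exp, ← Real.exp_nat_mul, ← Real.exp_add]
    apply Real.exp_le_exp.2
    have e : (π * Complex.I * (((n + 1 : ℕ) : ℂ) + 1) ^ 2 * w).re =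
        -(π * ((n : ℝ) + 2) ^ 2 * w.im) := by
      have : (π * Complex.I * (((n + 1 : ℕ) : ℂ) + 1) ^ 2 * w) =
          ((π * ((n : ℝ) + 2) ^ 2 : ℝ) : ℂ) * (Complex.I * w) := by
        push_cast
        ring
      rw [this, Complex.re_ofReal_mul]
      simp
    rw [e]
    have hn : (0 : ℝ) ≤ n := Nat.cast_nonneg n
    have : 0 ≤ π * w.im * (((n : ℝ) + 2) ^ 2 - 4 - n) := by
      apply mul_nonneg (mul_nonneg Real.pi_pos.le hw0.le)
      nlinarith
    linarith)
  rw [Finset.sum_range_one] at hb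
  have e2 : jacobiTheta w - 1 - 2 * Complex.exp (π * Complex.I * w) =
      2 * ((jacobiTheta w - 1) / 2 - Complex.exp (π * Complex.I * (((0 : ℕ) : ℂ) + 1) ^ 2 * w)) := by
    push_cast
    ring_nf
  rw [e2, norm_mul]
  have h6 : (1 - Real.exp (-(π * w.im)))⁻¹ ≤ 2 := by
    rw [inv_le_comm₀ (by linarith) (by norm_num)]
    linarith
  have h7 := Real.exp_pos (-(4 * π * w.im))
  have h8 : Real.exp (-(4 * π * w.im)) * (1 - Real.exp (-(π * w.im)))⁻¹ ≤
      Real.exp (-(4 * π * w.im)) * 2 := by gcongr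
  have h9 : ‖(2 : ℂ)‖ = 2 := by norm_num
  rw [h9]
  linarith

theorem l2_t2_tendsto :
    Tendsto (fun z => t2 z * Complex.exp (-(π * Complex.I * z / 4)) / 2) l2_L (𝓝 1) := by
  rw [tendsto_iff_norm_sub_tendsto_zero]
  have h1 : Tendsto (fun z : ℂ => 4 * Real.exp (-(3 / 4 * π * z.im))) l2_L (𝓝 0) := by
    have := (l2_exp (c := 3 / 4 * π) (by positivity)).const_mul 4
    simpa using this
  refine squeeze_zero' (Eventually.of_forall fun z => norm_nonneg _) ?_ h1
  have h4 : ∀ᶠ z : ℂ in l2_L, 4 ≤ z.im := l2_im.eventually_ge_atTop 4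
  filter_upwards [h4] with z hz
  have hw : 1 ≤ (z / 4).im := by
    have : (z / 4).im = z.im / 4 := by simp
    rw [this]; linarith
  have hb := l2_theta_bound hw
  have hc : ‖jacobiTheta z - 1‖ ≤ 4 * Real.exp (-(π * z.im)) := by
    have h5 := norm_jacobiTheta_sub_one_le (τ := z) (by linarith)
    have h6 : Real.exp (-π * z.im) < 1 / 2 := by
      have h3 : (1 : ℝ) < π * z.im := by nlinarith [Real.pi_gt_three]
      have h4 : Real.exp (-π * z.im) < Real.exp (-1) := Real.exp_lt_exp.2 (by linarith)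
      have h5 : Real.exp (-1) < 1 / 2 := by
        rw [Real.exp_neg, inv_lt_comm₀ (Real.exp_pos _) (by norm_num)]
        have := Real.exp_one_gt_d9
        norm_num
        linarith
      linarith
    have h7 : 2 / (1 - Real.exp (-π * z.im)) ≤ 4 := by
      rw [div_le_iff₀ (by linarith)]
      linarith
    have e : Real.exp (-(π * z.im)) = Real.exp (-π * z.im) := by congr 1; ring
    rw [e]
    calc ‖jacobiTheta z - 1‖ ≤ _ := h5
      _ ≤ 4 * Real.exp (-π * z.im) := by gcongr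
  set e := Complex.exp (-(π * Complex.I * z / 4)) with he
  have hee : Complex.exp (π * Complex.I * (z / 4)) * e = 1 := by
    rw [he, ← Complex.exp_add]
    have : π * Complex.I * (z / 4) + -(π * Complex.I * z / 4) = 0 := by ring
    rw [this, Complex.exp_zero]
  have hne : ‖e‖ = Real.exp (π * z.im / 4) := by
    rw [he, Complex.norm_exp]
    congr 1
    have : (-(π * Complex.I * z / 4) : ℂ) = ((-(π / 4) : ℝ) : ℂ) * (Complex.I * z) := by
      push_cast
      ring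
    rw [this, Complex.re_ofReal_mul]
    simp
    ring
  have e1 : t2 z * e / 2 - 1 = ((jacobiTheta (z / 4) - 1 -
      2 * Complex.exp (π * Complex.I * (z / 4))) * e - (jacobiTheta z - 1) * e) / 2 := by
    unfold t2
    linear_combination hee
  rw [e1, norm_div]
  have h9 : ‖(2 : ℂ)‖ = 2 := by norm_num
  have h10 : (z / 4).im = z.im / 4 := by simp
  rw [h10] at hb
  have h11 : Real.exp (-(4 * π * (z.im / 4))) * Real.exp (π * z.im / 4) =
      Real.exp (-(3 / 4 * π * z.im)) := by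
    rw [← Real.exp_add]
    congr 1
    ring
  have h12 : Real.exp (-(π * z.im)) * Real.exp (π * z.im / 4) =
      Real.exp (-(3 / 4 * π * z.im)) := by
    rw [← Real.exp_add]
    congr 1
    ring
  rw [h9, div_le_iff₀ (by norm_num)]
  calc _ ≤ ‖(jacobiTheta (z / 4) - 1 - 2 * Complex.exp (π * Complex.I * (z / 4))) * e‖ +
        ‖(jacobiTheta z - 1) * e‖ := norm_sub_le _ _
    _ ≤ 4 * Real.exp (-(4 * π * (z.im / 4))) * Real.exp (π * z.im / 4) +
        4 * Real.exp (-(π * z.im)) * Real.exp (π * z.im / 4) := by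
      rw [norm_mul, norm_mul, hne]
      gcongr
    _ = _ := by linear_combination 4 * h11 + 4 * h12

/-! ### the functions -/

theorem l2_half_sq (w : ℂ) : (w ^ (1 / 2 : ℂ)) ^ 2 = w := by
  have h := Complex.cpow_nat_inv_pow w (n := 2) (by norm_num)
  have e : (((2 : ℕ) : ℂ))⁻¹ = 1 / 2 := by norm_num
  rw [e] at h
  exact h

noncomputable def l2_R4 (z : ℂ) : ℂ := t4 z * ModularForm.eta z / ModularForm.eta (z / 2) ^ 2

noncomputable def l2_R2 (z : ℂ) : ℂ := t2 z * ModularForm.eta z / (2 * ModularForm.eta (2 * z) ^ 2)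

noncomputable def l2_S4 (z : ℂ) : ℂ := l2_R4 z ^ 2

noncomputable def l2_S2 (z : ℂ) : ℂ := l2_R2 z ^ 2

noncomputable def l2_S3 (z : ℂ) : ℂ := l2_S4 (z + 1)

theorem l2_half {z : ℂ} (hz : 0 < z.im) : 0 < (z / 2).im := by
  have : (z / 2).im = z.im / 2 := by simp
  rw [this]; positivity

theorem l2_two {z : ℂ} (hz : 0 < z.im) : 0 < (2 * z).im := by
  have : (2 * z).im = 2 * z.im := by simp
  rw [this]; positivity

theorem l2_ne {z : ℂ} (hz : 0 < z.im) : z ≠ 0 := by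
  rintro rfl
  simp at hz

theorem l2_eta_ne {z : ℂ} (hz : 0 < z.im) : ModularForm.eta z ≠ 0 := ModularForm.eta_ne_zero hz

/-- `ζ = e^{2πi/12}` -/
noncomputable def l2_ze : ℂ := Complex.exp (2 * π * Complex.I / 12)

theorem l2_ze_ne : l2_ze ≠ 0 := Complex.exp_ne_zero _

theorem l2_eta_T (z : ℂ) : ModularForm.eta (z + 1) ^ 2 = l2_ze * ModularForm.eta z ^ 2 :=
  NC11.eta_sq_T z

theorem l2_T4 {z : ℂ} (hz : 0 < z.im) : l2_S3 (z + 1) = l2_S4 z := by
  have hz1 : 0 < (z + 1).im := by simpa using hz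
  unfold l2_S3 l2_S4 l2_R4
  rw [t4_add_one hz1, t3_add_one z, ← t3_add_one z]
  have e0 : t3 (z + 1) = t4 z := rfl
  have e1 : (z + 1 + 1) / 2 = z / 2 + 1 := by ring
  have e2 : ModularForm.eta (z + 1 + 1) ^ 2 = l2_ze ^ 2 * ModularForm.eta z ^ 2 := by
    rw [l2_eta_T, l2_eta_T]; ring
  have h0 := l2_ze_ne
  have h1 := l2_eta_ne (l2_half hz)
  rw [e0, e1, div_pow, div_pow, mul_pow, mul_pow, e2, l2_eta_T]
  field_simp

theorem l2_T2 {z : ℂ} (hz : 0 < z.im) : l2_S2 (z + 1) = l2_S2 z := by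
  unfold l2_S2 l2_R2
  have e1 : 2 * (z + 1) = 2 * z + 1 + 1 := by ring
  have h0 := l2_ze_ne
  have h1 := l2_eta_ne (l2_two hz)
  have e3 : Complex.exp (π * Complex.I / 4) ^ 2 = l2_ze ^ 3 := by
    unfold l2_ze
    rw [← Complex.exp_nat_mul, ← Complex.exp_nat_mul]
    congr 1
    push_cast
    ring
  rw [t2_add_one hz, e1, l2_eta_T, l2_eta_T]
  have e4 : (Complex.exp (π * Complex.I / 4) * t2 z * ModularForm.eta (z + 1) /
      (2 * (l2_ze * (l2_ze * ModularForm.eta (2 * z) ^ 2)))) ^ 2 =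
      Complex.exp (π * Complex.I / 4) ^ 2 * t2 z ^ 2 * ModularForm.eta (z + 1) ^ 2 /
      (2 * (l2_ze * (l2_ze * ModularForm.eta (2 * z) ^ 2))) ^ 2 := by
    rw [div_pow]
    ring
  rw [e4, e3, l2_eta_T, div_pow]
  field_simp

theorem l2_SS4 {z : ℂ} (hz : 0 < z.im) : l2_S4 (-1 / z) = l2_S2 z := by
  have hz0 := l2_ne hz
  have h1 := l2_eta_ne (l2_two hz)
  unfold l2_S4 l2_S2 l2_R4 l2_R2
  have e1 : -1 / z / 2 = -1 / (2 * z) := by
    field_simp
  rw [t4_S hz, e1, NC11.eta_sq_S (l2_two hz), div_pow, mul_pow, mul_pow, l2_half_sq,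
    NC11.eta_sq_S hz, div_pow]
  field_simp

theorem l2_SS2 {z : ℂ} (hz : 0 < z.im) : l2_S2 (-1 / z) = l2_S4 z := by
  have hz0 := l2_ne hz
  have h1 := l2_eta_ne (l2_half hz)
  unfold l2_S4 l2_S2 l2_R4 l2_R2
  have e1 : 2 * (-1 / z) = -1 / (z / 2) := by
    field_simp
  rw [t2_S hz, e1, NC11.eta_sq_S (l2_half hz), div_pow, mul_pow, mul_pow, l2_half_sq,
    NC11.eta_sq_S hz, div_pow]
  field_simp

theorem l2_SS3 {z : ℂ} (hz : 0 < z.im) : l2_S3 (-1 / z) = l2_S3 z := by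
  have hz0 := l2_ne hz
  have hz1 : 0 < (z + 1).im := by simpa using hz
  have hS := NC11.m2_im hz
  have hu := l2_half hz1
  have h1 := l2_eta_ne hu
  have h0 := l2_ze_ne
  unfold l2_S3 l2_S4 l2_R4
  have e2 : (-1 / z + 1) / 2 = (((1 : ℤ) : ℂ) * ((z + 1) / 2) + ((-1 : ℤ) : ℂ)) /
      (((2 : ℤ) : ℂ) * ((z + 1) / 2) + ((-1 : ℤ) : ℂ)) := by
    push_cast
    have : (2 : ℂ) * ((z + 1) / 2) + -1 = z := by ring
    rw [this]
    field_simp
    ring
  have h2 := NC11.eta_sq_SL 1 (-1) 2 (-1) (by norm_num) hu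
  rw [← e2] at h2
  have e3 : NC11.chi ((1 : ℤ) : ZMod 12) ((-1 : ℤ) : ZMod 12) ((2 : ℤ) : ZMod 12)
      ((-1 : ℤ) : ZMod 12) = 9 := by decide
  have e4 : (((2 : ℤ) : ℂ) * ((z + 1) / 2) + ((-1 : ℤ) : ℂ)) = z := by push_cast; ring
  rw [e3, NC11.m2_zt_nine, e4] at h2
  have e5 : t4 (-1 / z + 1) = t3 (-1 / z) := t4_add_one hS
  rw [e5, t3_S hz, h2, t4_add_one hz, div_pow, div_pow, mul_pow, mul_pow, mul_pow, l2_half_sq,
    l2_eta_T, mul_pow (t3 z), l2_eta_T, NC11.eta_sq_S hz]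
  have hI : Complex.I ≠ 0 := Complex.I_ne_zero
  field_simp

/-! ### constancy -/

open NC11 (UH)

open UpperHalfPlane ModularForm MatrixGroups in
theorem l2_slT {h : ℂ → ℂ} (hT : ∀ z : ℂ, 0 < z.im → h (z + 1) = h z) :
    ((fun z : ℍ => h z) ∣[(0 : ℤ)] ModularGroup.T) = fun z : ℍ => h z := by
  ext z
  rw [SL_slash_apply, UpperHalfPlane.denom, UpperHalfPlane.modular_T_smul, ModularGroup.T]
  have h := hT z z.2
  simp
  rw [add_comm]
  exact h

open UpperHalfPlane ModularForm MatrixGroups in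
theorem l2_slS {h : ℂ → ℂ} (hS : ∀ z : ℂ, 0 < z.im → h (-1 / z) = h z) :
    ((fun z : ℍ => h z) ∣[(0 : ℤ)] ModularGroup.S) = fun z : ℍ => h z := by
  ext z
  have h := hS z z.2
  rw [SL_slash_apply, UpperHalfPlane.modular_S_smul]
  simp [UpperHalfPlane.denom, ModularGroup.S]
  rw [show (-(z : ℂ)⁻¹) = -1 / z by rw [neg_div, one_div], h]

theorem l2_neBot : l2_L.NeBot := by
  unfold l2_L
  exact (inferInstance : (atTop : Filter ℝ).NeBot).comap_of_surj Complex.im_surjective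

open UpperHalfPlane ModularForm MatrixGroups in
/-- a level one function of weight 0 -/
noncomputable def l2_form (h : ℂ → ℂ) (hd : DifferentiableOn ℂ h UH)
    (hT : ∀ z : ℂ, 0 < z.im → h (z + 1) = h z) (hS : ∀ z : ℂ, 0 < z.im → h (-1 / z) = h z)
    (hb : IsBoundedAtImInfty (fun z : ℍ => h z)) : ModularForm 𝒮ℒ 0 where
  toFun := fun z : ℍ => h z
  slash_action_eq' A hA := by
    obtain ⟨A, rfl⟩ := hA
    exact SlashInvariantForm.slash_action_generators_SL2Z (l2_slS hS) (l2_slT hT) A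
  holo' := by
    rw [UpperHalfPlane.mdifferentiable_iff]
    refine hd.congr fun z hz ↦ ?_
    simp [ofComplex_apply_of_im_pos hz]
  bdd_at_cusps' hc := by
    rw [Subgroup.IsArithmetic.isCusp_iff_isCusp_SL2Z] at hc
    rw [OnePoint.isBoundedAt_iff_forall_SL2Z hc]
    intro γ _
    rw [SlashInvariantForm.slash_action_generators_SL2Z (l2_slS hS) (l2_slT hT)]
    exact hb

theorem l2_eventually {p : ℂ → Prop} (h : ∀ᶠ z in l2_L, p z) : ∃ Y : ℝ, ∀ z : ℂ, Y ≤ z.im → p z := by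
  unfold l2_L at h
  rw [eventually_comap] at h
  obtain ⟨Y, hY⟩ := eventually_atTop.1 h
  exact ⟨Y, fun z hz => hY z.im hz z rfl⟩

theorem l2_const {h : ℂ → ℂ} (hd : DifferentiableOn ℂ h UH)
    (hT : ∀ z : ℂ, 0 < z.im → h (z + 1) = h z) (hS : ∀ z : ℂ, 0 < z.im → h (-1 / z) = h z)
    {c : ℂ} (hl : Tendsto h l2_L (𝓝 c)) {z : ℂ} (hz : 0 < z.im) : h z = c := by
  have hb : UpperHalfPlane.IsBoundedAtImInfty (fun z : UpperHalfPlane => h z) := by
    rw [UpperHalfPlane.isBoundedAtImInfty_iff]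
    have h1 : ∀ᶠ z in l2_L, ‖h z‖ ≤ ‖c‖ + 1 := by
      have h2 := hl.norm.eventually (gt_mem_nhds (show ‖c‖ < ‖c‖ + 1 by linarith))
      filter_upwards [h2] with z hz using hz.le
    obtain ⟨Y, hY⟩ := l2_eventually h1
    exact ⟨‖c‖ + 1, Y, fun z hz => hY z hz⟩
  obtain ⟨c', hc'⟩ := ModularForm.eq_const_of_weight_zero (l2_form h hd hT hS hb)
  have h3 : ∀ z : ℂ, 0 < z.im → h z = c' := fun z hz => congrFun hc' ⟨z, hz⟩
  have := l2_neBot
  have h4 : Tendsto h l2_L (𝓝 c') := by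
    refine tendsto_const_nhds.congr' ?_
    filter_upwards [l2_im.eventually_gt_atTop 0] with z hz using (h3 z hz).symm
  rw [h3 z hz, tendsto_nhds_unique h4 hl]

theorem l2_t4_diff {z : ℂ} (hz : 0 < z.im) : DifferentiableAt ℂ t4 z := by
  have hz1 : 0 < (z + 1).im := by simpa using hz
  exact (differentiableAt_jacobiTheta hz1).comp z (by fun_prop)

theorem l2_t2_diff {z : ℂ} (hz : 0 < z.im) : DifferentiableAt ℂ t2 z := by
  have hz1 : 0 < (z / 4).im := by
    have : (z / 4).im = z.im / 4 := by simp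
    rw [this]; positivity
  have h := DifferentiableAt.comp (g := jacobiTheta) (f := fun z : ℂ => z / 4) z
    (differentiableAt_jacobiTheta hz1) (by fun_prop)
  exact h.sub (differentiableAt_jacobiTheta hz)

theorem l2_eta_diff {z : ℂ} (hz : 0 < z.im) : DifferentiableAt ℂ ModularForm.eta z :=
  ModularForm.differentiableAt_eta_of_mem_upperHalfPlaneSet hz

theorem l2_R4_diff {z : ℂ} (hz : 0 < z.im) : DifferentiableAt ℂ l2_R4 z := by
  have h1 : DifferentiableAt ℂ (fun z : ℂ => ModularForm.eta (z / 2)) z :=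
    DifferentiableAt.comp (g := ModularForm.eta) (f := fun z : ℂ => z / 2) z
      (l2_eta_diff (l2_half hz)) (by fun_prop)
  exact ((l2_t4_diff hz).mul (l2_eta_diff hz)).div (h1.pow 2)
    (pow_ne_zero _ (l2_eta_ne (l2_half hz)))

theorem l2_R2_diff {z : ℂ} (hz : 0 < z.im) : DifferentiableAt ℂ l2_R2 z := by
  have h1 : DifferentiableAt ℂ (fun z : ℂ => ModularForm.eta (2 * z)) z :=
    DifferentiableAt.comp (g := ModularForm.eta) (f := fun z : ℂ => 2 * z) z
      (l2_eta_diff (l2_two hz)) (by fun_prop)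
  exact ((l2_t2_diff hz).mul (l2_eta_diff hz)).div ((h1.pow 2).const_mul 2)
    (mul_ne_zero two_ne_zero (pow_ne_zero _ (l2_eta_ne (l2_two hz))))

theorem l2_R4_tendsto : Tendsto l2_R4 l2_L (𝓝 1) := by
  have h1 : Tendsto (fun z : ℂ => l2_E (((1 / 2 : ℝ) : ℂ) * z)) l2_L (𝓝 1) :=
    l2_E_tendsto.comp (l2_scale (by norm_num))
  have h2 := (l2_t4_tendsto.mul l2_E_tendsto).div (h1.pow 2) (by norm_num)
  rw [show (1 : ℂ) * 1 / 1 ^ 2 = 1 by norm_num] at h2
  refine h2.congr' ?_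
  filter_upwards [l2_im.eventually_gt_atTop 0] with z hz
  have e1 : (((1 / 2 : ℝ) : ℂ) * z) = z / 2 := by push_cast; ring
  simp only [Pi.div_apply]
  rw [e1]
  unfold l2_R4
  rw [l2_eta z, l2_eta (z / 2), mul_pow]
  have e2 : Complex.exp (2 * π * Complex.I * (z / 2) / 24) ^ 2 =
      Complex.exp (2 * π * Complex.I * z / 24) := by
    rw [← Complex.exp_nat_mul]
    congr 1
    push_cast
    ring
  rw [e2]
  have h0 := Complex.exp_ne_zero (2 * π * Complex.I * z / 24)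
  have h3 := l2_E_ne (l2_half hz)
  field_simp

theorem l2_R2_tendsto : Tendsto l2_R2 l2_L (𝓝 1) := by
  have h1 : Tendsto (fun z : ℂ => l2_E (((2 : ℝ) : ℂ) * z)) l2_L (𝓝 1) :=
    l2_E_tendsto.comp (l2_scale (by norm_num))
  have h2 := (l2_t2_tendsto.mul l2_E_tendsto).div (h1.pow 2) (by norm_num)
  rw [show (1 : ℂ) * 1 / 1 ^ 2 = 1 by norm_num] at h2
  refine h2.congr' ?_
  filter_upwards [l2_im.eventually_gt_atTop 0] with z hz
  have e1 : (((2 : ℝ) : ℂ) * z) = 2 * z := by push_cast; ring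
  simp only [Pi.div_apply]
  rw [e1]
  unfold l2_R2
  rw [l2_eta z, l2_eta (2 * z), mul_pow]
  have e2 : Complex.exp (2 * π * Complex.I * (2 * z) / 24) ^ 2 *
      Complex.exp (-(π * Complex.I * z / 4)) = Complex.exp (2 * π * Complex.I * z / 24) := by
    rw [← Complex.exp_nat_mul, ← Complex.exp_add]
    congr 1
    push_cast
    ring
  rw [← e2]
  have h0 := Complex.exp_ne_zero (2 * π * Complex.I * (2 * z) / 24)
  have h3 := l2_E_ne (l2_two hz)
  field_simp

theorem l2_S4_tendsto : Tendsto l2_S4 l2_L (𝓝 1) := by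
  have := l2_R4_tendsto.pow 2
  rwa [one_pow] at this

theorem l2_S2_tendsto : Tendsto l2_S2 l2_L (𝓝 1) := by
  have := l2_R2_tendsto.pow 2
  rwa [one_pow] at this

theorem l2_S3_tendsto : Tendsto l2_S3 l2_L (𝓝 1) := l2_S4_tendsto.comp l2_add_one

theorem l2_S4_diff : DifferentiableOn ℂ l2_S4 UH :=
  fun _ hz => ((l2_R4_diff hz).pow 2).differentiableWithinAt

theorem l2_S2_diff : DifferentiableOn ℂ l2_S2 UH :=
  fun _ hz => ((l2_R2_diff hz).pow 2).differentiableWithinAt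

theorem l2_S3_diff : DifferentiableOn ℂ l2_S3 UH := by
  intro z hz
  have hz1 : 0 < (z + 1).im := by
    have : 0 < z.im := hz
    simpa using this
  exact (((l2_R4_diff hz1).pow 2).comp z (by fun_prop :
    DifferentiableAt ℂ (fun z : ℂ => z + 1) z)).differentiableWithinAt

theorem l2_T3 (z : ℂ) : l2_S4 (z + 1) = l2_S3 z := rfl

theorem l2_e1 {z : ℂ} (hz : 0 < z.im) : l2_S2 z + l2_S3 z + l2_S4 z = 3 := by
  have h := (l2_S2_tendsto.add l2_S3_tendsto).add l2_S4_tendsto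
  rw [show (1 : ℂ) + 1 + 1 = 3 by norm_num] at h
  exact l2_const (h := fun z => l2_S2 z + l2_S3 z + l2_S4 z)
    ((l2_S2_diff.add l2_S3_diff).add l2_S4_diff)
    (fun z hz => by rw [l2_T2 hz, l2_T4 hz, l2_T3]; ring)
    (fun z hz => by rw [l2_SS2 hz, l2_SS4 hz, l2_SS3 hz]; ring) h hz

theorem l2_e2 {z : ℂ} (hz : 0 < z.im) :
    l2_S2 z * l2_S3 z + l2_S2 z * l2_S4 z + l2_S3 z * l2_S4 z = 3 := by
  have h := ((l2_S2_tendsto.mul l2_S3_tendsto).add (l2_S2_tendsto.mul l2_S4_tendsto)).add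
    (l2_S3_tendsto.mul l2_S4_tendsto)
  rw [show (1 : ℂ) * 1 + 1 * 1 + 1 * 1 = 3 by norm_num] at h
  exact l2_const (h := fun z => l2_S2 z * l2_S3 z + l2_S2 z * l2_S4 z + l2_S3 z * l2_S4 z)
    (((l2_S2_diff.mul l2_S3_diff).add (l2_S2_diff.mul l2_S4_diff)).add (l2_S3_diff.mul l2_S4_diff))
    (fun z hz => by rw [l2_T2 hz, l2_T4 hz, l2_T3]; ring)
    (fun z hz => by rw [l2_SS2 hz, l2_SS4 hz, l2_SS3 hz]; ring) h hz

theorem l2_e3 {z : ℂ} (hz : 0 < z.im) : l2_S2 z * l2_S3 z * l2_S4 z = 1 := by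
  have h := (l2_S2_tendsto.mul l2_S3_tendsto).mul l2_S4_tendsto
  rw [show (1 : ℂ) * 1 * 1 = 1 by norm_num] at h
  exact l2_const (h := fun z => l2_S2 z * l2_S3 z * l2_S4 z)
    ((l2_S2_diff.mul l2_S3_diff).mul l2_S4_diff)
    (fun z hz => by rw [l2_T2 hz, l2_T4 hz, l2_T3]; ring)
    (fun z hz => by rw [l2_SS2 hz, l2_SS4 hz, l2_SS3 hz]; ring) h hz

theorem l2_S4_one {z : ℂ} (hz : 0 < z.im) : l2_S4 z = 1 := by
  have h1 := l2_e1 hz
  have h2 := l2_e2 hz
  have h3 := l2_e3 hz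
  have h4 : (l2_S4 z - 1) ^ 3 = 0 := by
    linear_combination (l2_S4 z) ^ 2 * h1 - l2_S4 z * h2 + h3
  exact sub_eq_zero.1 (pow_eq_zero_iff (by norm_num) |>.1 h4)

theorem l2_S2_one {z : ℂ} (hz : 0 < z.im) : l2_S2 z = 1 := by
  have h1 := l2_e1 hz
  have h2 := l2_e2 hz
  have h3 := l2_e3 hz
  have h4 : (l2_S2 z - 1) ^ 3 = 0 := by
    linear_combination (l2_S2 z) ^ 2 * h1 - l2_S2 z * h2 + h3
  exact sub_eq_zero.1 (pow_eq_zero_iff (by norm_num) |>.1 h4)

theorem l2_one_of {R : ℂ → ℂ} (hd : ∀ z : ℂ, 0 < z.im → DifferentiableAt ℂ R z)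
    (hsq : ∀ z : ℂ, 0 < z.im → R z ^ 2 = 1) (hl : Tendsto R l2_L (𝓝 1)) {z : ℂ} (hz : 0 < z.im) :
    R z = 1 := by
  have hc : ContinuousOn R UH := fun z hz => (hd z hz).continuousAt.continuousWithinAt
  have hp : IsPreconnected UH := MP9c45e8.isPreconnected_H
  rcases hp.eq_one_or_eq_neg_one_of_sq_eq hc (fun z hz => hsq z hz) with h | h
  · exact h hz
  · exfalso
    have := l2_neBot
    have h4 : Tendsto R l2_L (𝓝 (-1)) := by
      refine tendsto_const_nhds.congr' ?_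
      filter_upwards [l2_im.eventually_gt_atTop 0] with z hz using (h hz).symm
    have h5 := tendsto_nhds_unique h4 hl
    norm_num at h5

theorem gauss4 {z : ℂ} (hz : 0 < z.im) :
    t4 z * ModularForm.eta z = ModularForm.eta (z / 2) ^ 2 := by
  have h := l2_one_of (fun z hz => l2_R4_diff hz) (fun z hz => l2_S4_one hz) l2_R4_tendsto hz
  unfold l2_R4 at h
  rwa [div_eq_one_iff_eq (pow_ne_zero _ (l2_eta_ne (l2_half hz)))] at h

theorem gauss2 {z : ℂ} (hz : 0 < z.im) :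
    t2 z * ModularForm.eta z = 2 * ModularForm.eta (2 * z) ^ 2 := by
  have h := l2_one_of (fun z hz => l2_R2_diff hz) (fun z hz => l2_S2_one hz) l2_R2_tendsto hz
  unfold l2_R2 at h
  rwa [div_eq_one_iff_eq (mul_ne_zero two_ne_zero (pow_ne_zero _ (l2_eta_ne (l2_two hz))))] at h

end N19
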