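import Pool.Agent.NC11.M7
import Pool.Agent.GXA.U1

/-!
# [N19] the newform of level 19: definitions

`f = (ϑ₃(z)ϑ₃(19z) - ϑ₄(z)ϑ₄(19z) - ϑ₂(z)ϑ₂(19z))²/16` is the newform of weight `2` and level `19`, the curve is
`y² + y = x³ + x² - 9 x - 15` (`GXA.E 1 (-9) (-15)`).
-/

set_option autoImplicit false

open scoped Real

namespace N19

open NC11 (qq UH D Ev)

/-! ## functions on the upper half plane, level `N` -/

/-- `g` is invariant of weight `k` under `Γ₀(N)`. -/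
def Mod (N : ℕ) (k : ℕ) (g : ℂ → ℂ) : Prop :=
  ∀ a b c d : ℤ, a * d - N * b * c = 1 → ∀ z : ℂ, 0 < z.im →
    g ((a * z + b) / (N * c * z + d)) = (N * c * z + d) ^ k * g z

/-- `g` (of weight `2 k`) is an eigenfunction of the Fricke involution with eigenvalue `ε`. -/
def Fr (N : ℕ) (ε : ℤ) (k : ℕ) (g : ℂ → ℂ) : Prop :=
  ∀ z : ℂ, 0 < z.im → g (-1 / (N * z)) = ε * (N * z ^ 2) ^ k * g z

/-! ## theta functions -/

/-- `ϑ₃(z) = ∑_{n ∈ ℤ} e^{π i n² z}` -/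
noncomputable def t3 (z : ℂ) : ℂ := jacobiTheta z

/-- `ϑ₄(z) = ∑_{n ∈ ℤ} (-1)^n e^{π i n² z}` -/
noncomputable def t4 (z : ℂ) : ℂ := jacobiTheta (z + 1)

/-- `ϑ₂(z) = ∑_{n ∈ ℤ} e^{π i (n + 1/2)² z}` -/
noncomputable def t2 (z : ℂ) : ℂ := jacobiTheta (z / 4) - jacobiTheta z

/-- `G = ϑ₃(z)ϑ₃(19z) - ϑ₄(z)ϑ₄(19z) - ϑ₂(z)ϑ₂(19z) = 4 q^{1/2} (1 - q^2 - ...)` -/
noncomputable def G (z : ℂ) : ℂ := t3 z * t3 (19 * z) - t4 z * t4 (19 * z) - t2 z * t2 (19 * z)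

/-- the newform of level `19` -/
noncomputable def f (z : ℂ) : ℂ := G z ^ 2 / 16

/-- `H = η(z)² η(19z)²` has no zeros (weight `2`, order `5/3` at `i∞`) -/
noncomputable def H (z : ℂ) : ℂ := ModularForm.eta z ^ 2 * ModularForm.eta (19 * z) ^ 2

section Formal

open PowerSeries

/-- `B(X^k)` -/
noncomputable def ex (k : ℕ) (B : PowerSeries ℤ) : PowerSeries ℤ :=
  mk fun n => if k ∣ n then coeff (n / k) B else 0

/-- `ψ = ∑_{k ≥ 0} X^{k(k+1)/2}` -/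
noncomputable def psi : PowerSeries ℤ :=
  open scoped Classical in mk fun n => if ∃ k : ℕ, k * (k + 1) = 2 * n then 1 else 0

/-- `φ = ∑_{n ∈ ℤ} X^{n²}` -/
noncomputable def phs : PowerSeries ℤ :=
  open scoped Classical in mk fun n => if n = 0 then 1 else if ∃ k : ℕ, k * k = n then 2 else 0

/-- `G = 4 q^{1/2} γ(q)` -/
noncomputable def gam : PowerSeries ℤ :=
  ex 4 psi * ex 38 phs + X ^ 9 * ex 2 phs * ex 76 psi - X ^ 2 * psi * ex 19 psi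

/-- `A = X phi` -/
noncomputable def phi : PowerSeries ℤ := gam ^ 2

/-- The `q`-expansion of `f`. -/
noncomputable def A : PowerSeries ℤ := X * phi

/-- The coefficients of `f`. -/
noncomputable def an (n : ℕ) : ℤ := coeff n A

/-- `σ(n) - 19 σ(n / 19)` -/
noncomputable def sg (n : ℕ) : ℤ :=
  (ArithmeticFunction.sigma 1 n : ℤ) -
    if 19 ∣ n then 19 * (ArithmeticFunction.sigma 1 (n / 19) : ℤ) else 0

/-- The `q`-expansion of `w = (19 E₂(19 z) - E₂(z)) / 6`: `3 + 4 ∑ sg(n) X^n`. -/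
noncomputable def W : PowerSeries ℤ := mk fun n => if n = 0 then 3 else 4 * sg n

end Formal

/-- The Eisenstein series `w(z) = (19 E₂(19 z) - E₂(z)) / 6 = 3 + 4 ∑ sg(n) q^n`. -/
noncomputable def w (z : ℂ) : ℂ := ∑' n : ℕ, ((PowerSeries.coeff n W : ℤ) : ℂ) * qq z ^ n

/-- The Hecke operator `T_p` in weight 2. -/
noncomputable def T (p : ℕ) (g : ℂ → ℂ) (z : ℂ) : ℂ :=
  p * g (p * z) + 1 / p * ∑ j ∈ Finset.range p, g ((z + j) / p)

/-- Good primes: `4 p = a² + 19 b²` with `a`, `b` odd. -/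
def GoodPrime (p : ℕ) : Prop :=
  p.Prime ∧ ∃ a b : ℤ, Odd a ∧ Odd b ∧ 4 * (p : ℤ) = a ^ 2 + 19 * b ^ 2

end N19
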