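import Pool.Agent.N19.Defs

set_option autoImplicit false

open scoped Real

namespace N19

/-! ## [N19-L1] transformations of the theta functions

Mathlib (NumberTheory/ModularForms/JacobiTheta/OneVariable): `jacobiTheta_two_add`, `jacobiTheta_S_smul`, `hasSum_nat_jacobiTheta`, `jacobiTheta_eq_jacobiTheta₂`.
Split `∑_{n ∈ ℤ} e^{π i n² z/4}` into even and odd `n`: this gives `t2_hasSum`. `theta_succ`: `(-1)^{n²}`: the terms with even `n` are `jacobiTheta (4 z)`.
`t2_add_one`: `(2n+1)²/4 = n(n+1) + 1/4`. `t4_S`: `theta_succ` at `-1/z` and `jacobiTheta_S_smul` at `z/4`: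
`t4(-1/z) = 2 ϑ(-1/(z/4)) - ϑ(-1/z) = 2 √(-i z/4) ϑ(z/4) - √(-i z) ϑ(z) = √(-i z) t2(z)`. `t2_S`: put `-1/z` in `t4_S`. -/

private theorem l1_split {F : ℤ → ℂ} {s e : ℂ} (hs : HasSum F s)
    (he : HasSum (fun n : ℤ => F (2 * n)) e) : HasSum (fun n : ℤ => F (2 * n + 1)) (s - e) := by
  have h2 : Function.Injective (fun n : ℤ => 2 * n) := mul_right_injective₀ two_ne_zero
  have h3 : Function.Injective (fun n : ℤ => 2 * n + 1) := (add_left_injective 1).comp h2
  have ho : Summable (fun n : ℤ => F (2 * n + 1)) := hs.summable.comp_injective h3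
  obtain ⟨o, ho⟩ := ho
  have he' := h2.hasSum_range_iff.2 he
  have ho' := h3.hasSum_range_iff.2 ho
  have hcompl : IsCompl (Set.range fun n : ℤ => 2 * n) (Set.range fun n : ℤ => 2 * n + 1) := by
    have h := Int.isCompl_even_odd
    have e1 : (Set.range fun n : ℤ => 2 * n) = {n : ℤ | Even n} := by
      ext n
      constructor
      · rintro ⟨m, rfl⟩
        exact ⟨m, by ring⟩
      · rintro ⟨m, hm⟩
        exact ⟨m, by show 2 * m = n; rw [hm]; ring⟩
    have e2 : (Set.range fun n : ℤ => 2 * n + 1) = {n : ℤ | Odd n} := by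
      ext n
      constructor
      · rintro ⟨m, rfl⟩
        exact ⟨m, rfl⟩
      · rintro ⟨m, hm⟩
        exact ⟨m, hm.symm⟩
    rw [e1, e2]
    exact h
  have hsum : HasSum F (e + o) := he'.add_isCompl hcompl ho'
  have h4 := hs.unique hsum
  rw [h4, add_sub_cancel_left]
  exact ho

private theorem l1_theta {z : ℂ} (hz : 0 < z.im) :
    HasSum (fun n : ℤ => Complex.exp (π * Complex.I * (n : ℂ) ^ 2 * z)) (jacobiTheta z) := by
  have h := hasSum_jacobiTheta₂_term 0 hz
  simp_rw [jacobiTheta₂_term, mul_zero, zero_add, ← jacobiTheta_eq_jacobiTheta₂] at h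
  exact h

private theorem l1_int_even (n : ℤ) : ∃ k : ℤ, n ^ 2 + n = 2 * k := by
  obtain ⟨k, hk⟩ := Int.even_mul_succ_self n
  exact ⟨k, by linarith [hk, show n * (n + 1) = n ^ 2 + n by ring]⟩

theorem theta_succ {z : ℂ} (hz : 0 < z.im) :
    jacobiTheta (z + 1) = 2 * jacobiTheta (4 * z) - jacobiTheta z := by
  have hz4 : 0 < (4 * z).im := by
    have : (4 * z).im = 4 * z.im := by simp
    rw [this]
    positivity
  have hz1 : 0 < (z + 1).im := by simpa using hz
  have hA := l1_theta hz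
  have hB := l1_theta hz1
  have hC := l1_theta hz4
  have e1 : HasSum (fun n : ℤ => Complex.exp (π * Complex.I * ((2 * n : ℤ) : ℂ) ^ 2 * z))
      (jacobiTheta (4 * z)) := by
    convert! hC using 1
    funext n
    congr 1
    push_cast
    ring
  have e2 : HasSum (fun n : ℤ => Complex.exp (π * Complex.I * ((2 * n : ℤ) : ℂ) ^ 2 * (z + 1)))
      (jacobiTheta (4 * z)) := by
    convert! hC using 1
    funext n
    rw [Complex.exp_eq_exp_iff_exists_int]
    exact ⟨2 * n ^ 2, by push_cast; ring⟩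
  have o1 := l1_split (F := fun n : ℤ => Complex.exp (π * Complex.I * (n : ℂ) ^ 2 * z)) hA e1
  have o2 := l1_split (F := fun n : ℤ => Complex.exp (π * Complex.I * (n : ℂ) ^ 2 * (z + 1))) hB e2
  have h3 : HasSum (fun n : ℤ =>
      Complex.exp (π * Complex.I * ((2 * n + 1 : ℤ) : ℂ) ^ 2 * (z + 1)))
      (-(jacobiTheta z - jacobiTheta (4 * z))) := by
    convert! o1.neg using 1
    funext n
    have h5 : (π : ℂ) * Complex.I * ((2 * n + 1 : ℤ) : ℂ) ^ 2 * (z + 1) =
        π * Complex.I * ((2 * n + 1 : ℤ) : ℂ) ^ 2 * z + (π * Complex.I +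
          ((2 * n ^ 2 + 2 * n : ℤ) : ℂ) * (2 * π * Complex.I)) := by
      push_cast
      ring
    rw [h5, Complex.exp_add, Complex.exp_add, Complex.exp_pi_mul_I,
      Complex.exp_int_mul_two_pi_mul_I]
    ring
  have h4 := o2.unique h3
  linear_combination h4

theorem t3_hasSum {z : ℂ} (hz : 0 < z.im) :
    HasSum (fun n : ℤ => Complex.exp (π * Complex.I * (n : ℂ) ^ 2 * z)) (t3 z) := l1_theta hz

theorem t2_hasSum {z : ℂ} (hz : 0 < z.im) :
    HasSum (fun n : ℤ => Complex.exp (π * Complex.I * (2 * (n : ℂ) + 1) ^ 2 / 4 * z)) (t2 z) := by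
  have hz4 : 0 < (z / 4).im := by
    have : (z / 4).im = z.im / 4 := by
      rw [show z / 4 = z / (4 : ℝ) by push_cast; rfl, Complex.div_ofReal_im]
    rw [this]
    positivity
  have hA := l1_theta hz4
  have e1 : HasSum (fun n : ℤ => Complex.exp (π * Complex.I * ((2 * n : ℤ) : ℂ) ^ 2 * (z / 4)))
      (jacobiTheta z) := by
    convert! l1_theta hz using 1
    funext n
    congr 1
    push_cast
    ring
  have o1 := l1_split (F := fun n : ℤ => Complex.exp (π * Complex.I * (n : ℂ) ^ 2 * (z / 4))) hA e1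
  rw [t2]
  convert! o1 using 1
  funext n
  congr 1
  push_cast
  ring

theorem t3_add_one (z : ℂ) : t3 (z + 1) = t4 z := rfl

theorem t4_add_one {z : ℂ} (hz : 0 < z.im) : t4 (z + 1) = t3 z := by
  have _ := hz
  rw [t4, t3, show z + 1 + 1 = 2 + z by ring, jacobiTheta_two_add]

theorem t2_add_one {z : ℂ} (hz : 0 < z.im) :
    t2 (z + 1) = Complex.exp (π * Complex.I / 4) * t2 z := by
  have hz1 : 0 < (z + 1).im := by simpa using hz
  have h1 := t2_hasSum hz1
  have h2 := (t2_hasSum hz).mul_left (Complex.exp (π * Complex.I / 4))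
  apply h1.unique
  convert! h2 using 1
  funext n
  obtain ⟨k, hk⟩ := l1_int_even n
  have h5 : (π : ℂ) * Complex.I * (2 * (n : ℂ) + 1) ^ 2 / 4 * (z + 1) =
      π * Complex.I / 4 + π * Complex.I * (2 * (n : ℂ) + 1) ^ 2 / 4 * z +
        (k : ℂ) * (2 * π * Complex.I) := by
    have hk' : (n : ℂ) ^ 2 + n = 2 * k := by exact_mod_cast hk
    linear_combination (π * Complex.I) * hk'
  rw [h5, Complex.exp_add, Complex.exp_int_mul_two_pi_mul_I, mul_one, Complex.exp_add]

theorem t3_S {z : ℂ} (hz : 0 < z.im) :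
    t3 (-1 / z) = (-Complex.I * z) ^ (1 / 2 : ℂ) * t3 z := by
  have h := jacobiTheta_S_smul ⟨z, hz⟩
  rw [UpperHalfPlane.modular_S_smul] at h
  rw [t3, t3]
  have e : (-1 / z : ℂ) = (-z)⁻¹ := by
    rw [neg_div, one_div, inv_neg]
  rw [e]
  exact h

private theorem l1_im_div_four {z : ℂ} (hz : 0 < z.im) : 0 < (z / 4).im := by
  have : (z / 4).im = z.im / 4 := by
    rw [show z / 4 = z / (4 : ℝ) by push_cast; rfl, Complex.div_ofReal_im]
  rw [this]
  positivity

private theorem l1_im_neg_inv {z : ℂ} (hz : 0 < z.im) : 0 < (-1 / z).im := by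
  have h := UpperHalfPlane.im_inv_neg_coe_pos ⟨z, hz⟩
  have e : (-1 / z : ℂ) = (-z)⁻¹ := by
    rw [neg_div, one_div, inv_neg]
  rw [e]
  exact h

private theorem l1_sqrt_four {z : ℂ} (hz : 0 < z.im) :
    (-Complex.I * z) ^ (1 / 2 : ℂ) = 2 * (-Complex.I * (z / 4)) ^ (1 / 2 : ℂ) := by
  have h0 : z ≠ 0 := by
    rintro rfl
    simp at hz
  have e1 : -Complex.I * z = ((4 : ℝ) : ℂ) * (-Complex.I * (z / 4)) := by
    push_cast
    ring
  have hw : -Complex.I * (z / 4) ≠ 0 :=
    mul_ne_zero (neg_ne_zero.2 Complex.I_ne_zero) (div_ne_zero h0 (by norm_num))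
  have hw' : ((4 : ℝ) : ℂ) * (-Complex.I * (z / 4)) ≠ 0 := mul_ne_zero (by norm_num) hw
  rw [e1, Complex.cpow_def_of_ne_zero hw', Complex.cpow_def_of_ne_zero hw,
    Complex.log_ofReal_mul (by norm_num) hw, add_mul, Complex.exp_add]
  congr 1
  have h4 : Real.log 4 = 2 * Real.log 2 := by
    rw [show (4 : ℝ) = 2 ^ 2 by norm_num, Real.log_pow]
    norm_num
  have e2 : ((Real.log 4 : ℝ) : ℂ) * (1 / 2) = ((Real.log 2 : ℝ) : ℂ) := by
    rw [h4]
    push_cast
    ring
  rw [e2, ← Complex.ofReal_exp, Real.exp_log (by norm_num)]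
  norm_num

theorem t4_S {z : ℂ} (hz : 0 < z.im) :
    t4 (-1 / z) = (-Complex.I * z) ^ (1 / 2 : ℂ) * t2 z := by
  have hz4 := l1_im_div_four hz
  have h0 : z ≠ 0 := by
    rintro rfl
    simp at hz
  rw [t4, theta_succ (l1_im_neg_inv hz)]
  have e1 : (4 : ℂ) * (-1 / z) = -1 / (z / 4) := by
    field_simp
  have h1 := t3_S hz4
  have h2 := t3_S hz
  simp only [t3] at h1 h2
  rw [e1, h1, h2, t2, l1_sqrt_four hz]
  ring

private theorem l1_sqrt_mul {z : ℂ} (hz : 0 < z.im) :
    (-Complex.I * z) ^ (1 / 2 : ℂ) * (-Complex.I * (-1 / z)) ^ (1 / 2 : ℂ) = 1 := by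
  have h0 : z ≠ 0 := by
    rintro rfl
    simp at hz
  have hre : 0 < (-Complex.I * z).re := by
    simpa using hz
  have hw : -Complex.I * z ≠ 0 := by
    intro h
    rw [h] at hre
    simp at hre
  have harg : (-Complex.I * z).arg ≠ π := by
    intro h
    rw [Complex.arg_eq_pi_iff] at h
    linarith [h.1]
  have e1 : -Complex.I * (-1 / z) = (-Complex.I * z)⁻¹ := by
    apply eq_inv_of_mul_eq_one_left
    have : -Complex.I * (-1 / z) * (-Complex.I * z) = -(Complex.I * Complex.I) * (z / z) := by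
      ring
    rw [Complex.I_mul_I, div_self h0] at this
    rw [this]
    norm_num
  rw [e1, Complex.inv_cpow _ _ harg, mul_inv_cancel₀]
  rw [Ne, Complex.cpow_eq_zero_iff, not_and_or]
  exact Or.inl hw

theorem t2_S {z : ℂ} (hz : 0 < z.im) :
    t2 (-1 / z) = (-Complex.I * z) ^ (1 / 2 : ℂ) * t4 z := by
  have h0 : z ≠ 0 := by
    rintro rfl
    simp at hz
  have h := t4_S (l1_im_neg_inv hz)
  have e : (-1 / (-1 / z) : ℂ) = z := by
    field_simp
  rw [e] at h
  rw [h, ← mul_assoc, l1_sqrt_mul hz, one_mul]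

end N19
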