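import Pool.Agent.N19.L1

set_option autoImplicit false

open scoped Real
open PowerSeries

namespace N19

open NC11 (qq UH D Ev)

/-! ## [N19-L4] the `q`-expansion of `f`

`t2(z) = 2 e^{π i z/4} Ψ(z)`, `Ev psi Ψ` (pair `n` with `-1-n` in `t2_hasSum`: `(2n+1)²/8 = n(n+1)/2 + 1/8`), `t3(2z) = Φ(z)`, `Ev phs Φ` (from `t3_hasSum`),
`Ev B g → Ev (ex k B) (fun z => g (k z))` for `0 < k`. `t3(z) = t3(4z) + t2(4z)`, `t4(z) = t3(4z) - t2(4z)` (definition of `t2`, `theta_succ`), so
`G(z) = 2 (t2(4z) t3(76z) + t3(4z) t2(76z)) - t2(z) t2(19z) = 4 e^{π i z} γ(z)` with `Ev gam γ`. -/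

private theorem l4_im {k : ℕ} (hk : 0 < k) {z : ℂ} (hz : 0 < z.im) : 0 < ((k : ℂ) * z).im := by
  have : ((k : ℂ) * z).im = k * z.im := by simp
  rw [this]
  positivity

private theorem l4_qq_mul (k : ℕ) (z : ℂ) : qq (k * z) = qq z ^ k := by
  rw [qq, qq, ← Complex.exp_nat_mul]
  congr 1
  ring

theorem ev_ex {B : PowerSeries ℤ} {g : ℂ → ℂ} (h : Ev B g) {k : ℕ} (hk : 0 < k) :
    Ev (ex k B) (fun z => g (k * z)) := by
  intro z hz
  have h1 := h (k * z) (l4_im hk hz)
  have hinj : Function.Injective (fun n : ℕ => k * n) := mul_right_injective₀ hk.ne'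
  rw [← hinj.hasSum_iff]
  · convert! h1 using 1
    funext n
    simp only [Function.comp_apply]
    rw [ex, coeff_mk, if_pos (Dvd.intro n rfl), Nat.mul_div_cancel_left n hk, l4_qq_mul, ← pow_mul]
  · intro m hm
    have hnd : ¬ k ∣ m := by
      rintro ⟨c, rfl⟩
      exact hm ⟨c, rfl⟩
    rw [ex, coeff_mk, if_neg hnd]
    simp

private noncomputable def l4_Psi (z : ℂ) : ℂ := t2 z / (2 * Complex.exp (π * Complex.I * z / 4))

private theorem l4_t2 (z : ℂ) : t2 z = 2 * Complex.exp (π * Complex.I * z / 4) * l4_Psi z := by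
  rw [l4_Psi, mul_div_cancel₀]
  exact mul_ne_zero two_ne_zero (Complex.exp_ne_zero _)

private theorem l4_tri (k : ℕ) : 2 * (k * (k + 1) / 2) = k * (k + 1) :=
  Nat.mul_div_cancel' (Nat.even_mul_succ_self k).two_dvd

private theorem l4_tri_inj : Function.Injective (fun k : ℕ => k * (k + 1) / 2) := by
  intro a b hab
  simp only at hab
  have h1 := l4_tri a
  have h2 := l4_tri b
  rw [hab, h2] at h1
  rcases lt_trichotomy a b with h | h | h
  · nlinarith
  · exact h
  · nlinarith

private theorem l4_psi : Ev psi l4_Psi := by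
  intro z hz
  have h1 := (t2_hasSum hz).nat_add_neg_add_one
  have h2 : HasSum (fun n : ℕ => qq z ^ (n * (n + 1) / 2)) (l4_Psi z) := by
    rw [l4_Psi]
    have h3 := h1.div_const (2 * Complex.exp (π * Complex.I * z / 4))
    convert! h3 using 1
    funext n
    have hne : Complex.exp (π * Complex.I * z / 4) ≠ 0 := Complex.exp_ne_zero _
    have e1 : Complex.exp (π * Complex.I * (2 * ((n : ℤ) : ℂ) + 1) ^ 2 / 4 * z) =
        Complex.exp (π * Complex.I * z / 4) * qq z ^ (n * (n + 1) / 2) := by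
      rw [qq, ← Complex.exp_nat_mul, ← Complex.exp_add]
      congr 1
      have h5 : (2 : ℂ) * ((n * (n + 1) / 2 : ℕ) : ℂ) = n * (n + 1) := by
        exact_mod_cast l4_tri n
      push_cast at h5 ⊢
      linear_combination (-(π * Complex.I * z)) * h5
    have e2 : Complex.exp (π * Complex.I * (2 * ((-((n : ℤ) + 1) : ℤ) : ℂ) + 1) ^ 2 / 4 * z) =
        Complex.exp (π * Complex.I * (2 * ((n : ℤ) : ℂ) + 1) ^ 2 / 4 * z) := by
      congr 1
      push_cast
      ring
    rw [e2, e1]
    field_simp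
    ring
  rw [← l4_tri_inj.hasSum_iff]
  · convert! h2 using 1
    funext n
    simp only [Function.comp_apply]
    rw [psi, coeff_mk, if_pos ⟨n, (l4_tri n).symm⟩]
    simp
  · intro m hm
    rw [psi, coeff_mk, if_neg]
    · simp
    · rintro ⟨k, hk⟩
      apply hm
      exact ⟨k, by
        have := l4_tri k
        show k * (k + 1) / 2 = m
        omega⟩

private theorem l4_phs : Ev phs (fun z => t3 (2 * z)) := by
  intro z hz
  have hz2 : 0 < (2 * z).im := by
    have := l4_im (k := 2) (by norm_num) hz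
    exact_mod_cast this
  have h1 := (hasSum_nat_jacobiTheta hz2).mul_left 2
  have h2 : HasSum (fun n : ℕ => 2 * qq z ^ ((n + 1) * (n + 1))) (t3 (2 * z) - 1) := by
    convert! h1 using 1
    · funext n
      congr 1
      rw [qq, ← Complex.exp_nat_mul]
      congr 1
      push_cast
      ring
    · rw [t3]
      ring
  have h0 : ∑ i ∈ Finset.range 1, ((coeff i phs : ℤ) : ℂ) * qq z ^ i = 1 := by
    rw [Finset.sum_range_one, phs, coeff_mk, if_pos rfl]
    simp
  rw [← hasSum_nat_add_iff' 1, h0]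
  have hinj : Function.Injective (fun n : ℕ => (n + 1) * (n + 1) - 1) := by
    intro a b hab
    simp only at hab
    have h3 : (a + 1) * (a + 1) = (b + 1) * (b + 1) := by
      have ha : 0 < (a + 1) * (a + 1) := by positivity
      have hb : 0 < (b + 1) * (b + 1) := by positivity
      omega
    have h4 := Nat.mul_self_inj.1 h3
    omega
  rw [← hinj.hasSum_iff]
  · convert! h2 using 1
    funext n
    simp only [Function.comp_apply]
    have ha : 0 < (n + 1) * (n + 1) := by positivity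
    have e : (n + 1) * (n + 1) - 1 + 1 = (n + 1) * (n + 1) := by omega
    rw [e, phs, coeff_mk, if_neg ha.ne', if_pos ⟨n + 1, rfl⟩]
    simp
  · intro m hm
    rw [phs, coeff_mk, if_neg (by omega), if_neg]
    · simp
    · rintro ⟨k, hk⟩
      apply hm
      obtain ⟨j, rfl⟩ : ∃ j, k = j + 1 := by
        rcases k with _ | j
        · simp at hk
        · exact ⟨j, rfl⟩
      exact ⟨j, by show (j + 1) * (j + 1) - 1 = m; omega⟩

private theorem l4_X : Ev (X : PowerSeries ℤ) qq := by
  intro z _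
  have h := hasSum_single (f := fun n : ℕ => ((coeff n (X : PowerSeries ℤ) : ℤ) : ℂ) * qq z ^ n) 1
    (fun n hn => by rw [coeff_X, if_neg hn]; simp)
  rw [coeff_X, if_pos rfl] at h
  simpa using h

private theorem l4_t3 (z : ℂ) : t3 z = t3 (4 * z) + t2 (4 * z) := by
  rw [t3, t3, t2, show 4 * z / 4 = z by ring]
  ring

private theorem l4_t4 {z : ℂ} (hz : 0 < z.im) : t4 z = t3 (4 * z) - t2 (4 * z) := by
  rw [t4, theta_succ hz, t3, t2, show 4 * z / 4 = z by ring]
  ring

theorem G_eq : ∃ Γ : ℂ → ℂ, Ev gam Γ ∧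
    ∀ z : ℂ, 0 < z.im → G z = 4 * Complex.exp (π * Complex.I * z) * Γ z := by
  have a1 := ev_ex l4_psi (k := 4) (by norm_num)
  have a2 := ev_ex l4_phs (k := 38) (by norm_num)
  have a3 := ev_ex l4_phs (k := 2) (by norm_num)
  have a4 := ev_ex l4_psi (k := 76) (by norm_num)
  have a5 := ev_ex l4_psi (k := 19) (by norm_num)
  have b1 := a1.mul a2
  have b2 := ((l4_X.pow 9).mul a3).mul a4
  have b3 := ((l4_X.pow 2).mul l4_psi).mul a5
  have b := (b1.add b2).sub b3
  refine ⟨_, b, ?_⟩
  intro z hz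
  have hz19 : 0 < (19 * z).im := by
    have := l4_im (k := 19) (by norm_num) hz
    exact_mod_cast this
  rw [G, l4_t3 z, l4_t3 (19 * z), l4_t4 hz, l4_t4 hz19]
  have c1 := l4_t2 (4 * z)
  have c2 := l4_t2 (4 * (19 * z))
  have c3 := l4_t2 z
  have c4 := l4_t2 (19 * z)
  rw [c1, c2, c3, c4]
  have e1 : Complex.exp (π * Complex.I * (4 * z) / 4) = Complex.exp (π * Complex.I * z) := by
    congr 1; ring
  have e2 : Complex.exp (π * Complex.I * (4 * (19 * z)) / 4) =
      Complex.exp (π * Complex.I * z) * qq z ^ 9 := by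
    rw [qq, ← Complex.exp_nat_mul, ← Complex.exp_add]
    congr 1
    push_cast
    ring
  have e3 : Complex.exp (π * Complex.I * z / 4) * Complex.exp (π * Complex.I * (19 * z) / 4) =
      Complex.exp (π * Complex.I * z) * qq z ^ 2 := by
    rw [qq, ← Complex.exp_nat_mul, ← Complex.exp_add, ← Complex.exp_add]
    congr 1
    push_cast
    ring
  have e4 : (2 : ℂ) * (((38 : ℕ) : ℂ) * z) = 4 * (19 * z) := by push_cast; ring
  have e5 : (2 : ℂ) * (((2 : ℕ) : ℂ) * z) = 4 * z := by push_cast; ring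
  have e6 : (((76 : ℕ) : ℂ) * z) = 4 * (19 * z) := by push_cast; ring
  have e7 : (((4 : ℕ) : ℂ) * z) = 4 * z := by push_cast; ring
  have e8 : (((19 : ℕ) : ℂ) * z) = 19 * z := by push_cast; ring
  rw [e4, e5, e6, e7, e8, e1, e2]
  linear_combination (-4 * l4_Psi z * l4_Psi (19 * z)) * e3

theorem f_ev : Ev A f := by
  obtain ⟨Γ, hΓ, hG⟩ := G_eq
  have h1 := l4_X.mul (hΓ.pow 2)
  refine h1.congr ?_
  intro z hz
  rw [f, hG z hz, qq]
  have e : Complex.exp (2 * π * Complex.I * z) = Complex.exp (π * Complex.I * z) ^ 2 := by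
    rw [← Complex.exp_nat_mul]
    congr 1
    push_cast
    ring
  rw [e]
  ring

end N19
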